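import Pool.Agent.H13.EC.Defs

/-!
# Module QF of board ec_modules (MP_6b5a9a_nt)

Adapted from `Pool/Agent/H69/HP/SQ.lean`.
-/

open Polynomial

namespace Pool.Agent.H47.EC.QF

open Pool.Agent.H13.EC IntermediateField

universe u

/-- A nonempty sum of different odd powers of `X` is not of the form `c ^ 2 + c`. -/
theorem poly_ne {F : Type*} [Field F] (J : Finset ℕ) (hJ : J.Nonempty) (c : F[X]) :
    c ^ 2 + c ≠ ∑ j ∈ J, X ^ (2 * j + 1) := by
  classical
  intro h
  have hD : (∑ j ∈ J, (X : F[X]) ^ (2 * j + 1)).natDegree = 2 * J.max' hJ + 1 := by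
    apply natDegree_eq_of_le_of_coeff_ne_zero
    · apply natDegree_sum_le_of_forall_le
      intro j hj
      rw [natDegree_X_pow]
      have := J.le_max' j hj
      omega
    · rw [finsetSum_coeff, Finset.sum_eq_single (J.max' hJ)]
      · simp
      · intro j _ hj
        rw [coeff_X_pow, if_neg]
        omega
      · intro h'
        exact absurd (J.max'_mem hJ) h'
  rw [← h] at hD
  by_cases hc : c.natDegree = 0
  · rw [eq_C_of_natDegree_eq_zero hc, ← C_pow, ← C_add, natDegree_C] at hD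
    omega
  · rw [natDegree_add_eq_left_of_natDegree_lt, natDegree_pow] at hD
    · omega
    · rw [natDegree_pow]
      omega

/-- The same in the purely transcendental extension. -/
theorem adjoin_ne {F E : Type*} [Field F] [Field E] [Algebra F E] {ι : Type*}
    {x : ι → E} (hx : AlgebraicIndependent F x) (i : ι) (J : Finset ℕ) (hJ : J.Nonempty)
    (t : adjoin F (Set.range x)) (ht : (t : E) = x i) (f : adjoin F (Set.range x)) :
    f ^ 2 + f ≠ ∑ j ∈ J, t ^ (2 * j + 1) := by
  classical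
  intro hf
  let φ := hx.aevalEquivField
  have ht' : φ (algebraMap (MvPolynomial ι F) _ (MvPolynomial.X i)) = t := by
    apply Subtype.ext
    rw [ht]
    have := hx.aevalEquivField_algebraMap_apply_coe (MvPolynomial.X i)
    rw [MvPolynomial.aeval_X] at this
    exact this
  have ht2 : φ.symm t = algebraMap (MvPolynomial ι F) _ (MvPolynomial.X i) := by
    rw [← ht', AlgEquiv.symm_apply_apply]
  have h1 : (φ.symm f) ^ 2 + (φ.symm f) = algebraMap (MvPolynomial ι F)
      (FractionRing (MvPolynomial ι F))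
      (∑ j ∈ J, (MvPolynomial.X i) ^ (2 * j + 1)) := by
    rw [← map_pow, ← map_add, hf, map_sum, map_sum]
    refine Finset.sum_congr rfl fun j _ => ?_
    rw [map_pow, map_pow, ht2]
  have h2 : IsIntegral (MvPolynomial ι F) (φ.symm f) := by
    refine ⟨X ^ 2 + (X - C (∑ j ∈ J, (MvPolynomial.X i) ^ (2 * j + 1))), ?_, ?_⟩
    · apply monic_X_pow_add
      rw [degree_X_sub_C]
      exact Nat.one_lt_ofNat
    · rw [eval₂_add, eval₂_sub, eval₂_X_pow, eval₂_C, eval₂_X, ← h1]
      ring
  obtain ⟨p, hp⟩ := IsIntegrallyClosed.isIntegral_iff.1 h2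
  rw [← hp, ← map_pow, ← map_add] at h1
  have h3 := IsFractionRing.injective (MvPolynomial ι F) (FractionRing (MvPolynomial ι F)) h1
  have h4 := congrArg (MvPolynomial.aeval (R := F) (fun _ : ι => (X : F[X]))) h3
  rw [map_add, map_pow, map_sum] at h4
  refine poly_ne J hJ _ (h4.trans ?_)
  refine Finset.sum_congr rfl fun j _ => ?_
  rw [map_pow, MvPolynomial.aeval_X]

theorem qf (hK : T_ASK.{u}) : T_QF.{u} := by
  classical
  intro M L V _ _ _ _ _ ι ψ A t hψ hA ht
  let _ : Algebra (ZMod 2) M := ZMod.algebra M 2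
  have hmap : ZMod.castHom (dvd_refl 2) M = algebraMap (ZMod 2) M := Subsingleton.elim _ _
  have h2M : (2 : M) = 0 := CharTwo.two_eq_zero
  have h2L : (2 : L) = 0 := by
    have := congrArg ι h2M
    rwa [map_ofNat, map_zero] at this
  have httr : Transcendental (ZMod 2) t := by
    rw [transcendental_iff]
    intro p hp
    apply ht
    rw [hmap]
    exact hp
  have hadj : IntermediateField.adjoin (ZMod 2) (A : Set M) = ⊤ := by
    rw [eq_top_iff]
    intro y _
    have h1 : y ∈ Subfield.closure (A : Set M) := by rw [hA]; trivial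
    have h2 : Subfield.closure (A : Set M) ≤
        (IntermediateField.adjoin (ZMod 2) (A : Set M)).toSubfield :=
      Subfield.closure_le.2 (IntermediateField.subset_adjoin _ _)
    exact h2 h1
  have hess : Algebra.EssFiniteType (ZMod 2) M := by
    rw [← IntermediateField.fg_top_iff]
    exact ⟨A, hadj⟩
  have halg : Algebra.IsAlgebraic (Algebra.adjoin (ZMod 2) (insert t (A : Set M))) M := by
    rw [← isAlgebraic_adjoin_iff_top]
    have : IntermediateField.adjoin (ZMod 2) (insert t (A : Set M)) = ⊤ := by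
      rw [eq_top_iff, ← hadj]
      exact IntermediateField.adjoin.mono _ _ _ (Set.subset_insert _ _)
    rw [this, Algebra.isAlgebraic_iff_isIntegral]
    exact Algebra.isIntegral_of_surjective topEquiv.surjective
  have hind : AlgebraicIndepOn (ZMod 2) id ({t} : Set M) := by
    have : Unique ({t} : Set M) := Set.uniqueSingleton t
    exact (algebraicIndependent_singleton_iff (⟨t, rfl⟩ : ({t} : Set M))).2 httr
  obtain ⟨B, htB, hBA, hB⟩ := exists_isTranscendenceBasis_between (R := ZMod 2) {t}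
    (insert t (A : Set M)) (by simp) hind
  set N := IntermediateField.adjoin (ZMod 2) (Set.range ((↑) : B → M)) with hN
  have hfinNM : FiniteDimensional N M := by
    have : Algebra.EssFiniteType N M := .of_comp (ZMod 2) _ _
    have : Algebra.IsAlgebraic N M := hB.isAlgebraic_field
    exact Algebra.finite_of_essFiniteType_of_isAlgebraic
  have htB' : t ∈ B := htB rfl
  let tN : N := ⟨t, IntermediateField.subset_adjoin _ _ ⟨⟨t, htB'⟩, rfl⟩⟩
  have hcN : CharP N 2 := charP_of_injective_algebraMap (algebraMap (ZMod 2) N).injective 2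
  obtain ⟨n, hn⟩ := hK N M
  let f : ℕ → V := fun j => ψ (ι (t ^ (2 * j + 1)))
  obtain ⟨y, hy⟩ := Finite.exists_infinite_fiber f
  let P := Infinite.natEmbedding (f ⁻¹' {y})
  let q : ℕ → ℕ := fun i => ((P i : ℕ))
  have hqinj : Function.Injective q := by
    intro i j h
    exact P.injective (Subtype.ext h)
  have hqy : ∀ i, ψ (ι (t ^ (2 * q i + 1))) = y := fun i => (P i).2
  let e0 : Fin (n + 1) ↪ ℕ := ⟨fun i => 2 * (i : ℕ), fun i j h => by
    apply Fin.ext
    have : 2 * (i : ℕ) = 2 * (j : ℕ) := h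
    omega⟩
  let e1 : Fin (n + 1) ↪ ℕ := ⟨fun i => 2 * (i : ℕ) + 1, fun i j h => by
    apply Fin.ext
    have : 2 * (i : ℕ) + 1 = 2 * (j : ℕ) + 1 := h
    omega⟩
  obtain ⟨i, hi⟩ := hn (fun i => tN ^ (2 * q (2 * (i : ℕ)) + 1) +
      tN ^ (2 * q (2 * (i : ℕ) + 1) + 1)) (by
    rintro s hs ⟨r, hr⟩
    have hdisj : Disjoint (s.map e0) (s.map e1) := by
      rw [Finset.disjoint_left]
      intro a ha hb
      obtain ⟨i, _, hi⟩ := Finset.mem_map.1 ha
      obtain ⟨j, _, hj⟩ := Finset.mem_map.1 hb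
      have h1 : 2 * (i : ℕ) = a := hi
      have h2 : 2 * (j : ℕ) + 1 = a := hj
      omega
    refine adjoin_ne hB.1 ⟨t, htB'⟩
      (((s.map e0).disjUnion (s.map e1) hdisj).map ⟨q, hqinj⟩) ?_ tN rfl r ?_
    · rw [Finset.map_nonempty]
      obtain ⟨a, ha⟩ := hs
      exact ⟨e0 a, by
        rw [Finset.mem_disjUnion]
        exact Or.inl (Finset.mem_map_of_mem _ ha)⟩
    · rw [hr, Finset.sum_map, Finset.sum_disjUnion, Finset.sum_map, Finset.sum_map,
        ← Finset.sum_add_distrib]
      rfl)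
  refine ⟨algebraMap N M (tN ^ (2 * q (2 * (i : ℕ)) + 1) +
      tN ^ (2 * q (2 * (i : ℕ) + 1) + 1)), ?_, hi⟩
  rw [← hψ]
  have h1 : algebraMap N M (tN ^ (2 * q (2 * (i : ℕ)) + 1) +
      tN ^ (2 * q (2 * (i : ℕ) + 1) + 1)) = t ^ (2 * q (2 * (i : ℕ)) + 1) +
      t ^ (2 * q (2 * (i : ℕ) + 1) + 1) := rfl
  rw [h1, map_add, map_add, hqy, hqy, ← hqy 0, ← map_add]
  have h3 : ι (t ^ (2 * q 0 + 1)) + ι (t ^ (2 * q 0 + 1)) = 0 := by
    linear_combination (ι (t ^ (2 * q 0 + 1))) * h2L
  rw [h3, map_zero]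

end Pool.Agent.H47.EC.QF
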