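import Pool.Agent.H13.EC.Defs

/-!
# Module TAU of board ec_modules (MP_6b5a9a_nt): an automorphism and its Artin-Schreier character

Adapted from `Pool/Agent/H33/HP/TAU.lean` (characteristic different from 2).
-/

open Polynomial

namespace Pool.Agent.H47.EC.TAU

open Pool.Agent.H13.EC IntermediateField

universe u

/-- A constant of the form `r ^ 2 + r` in a purely transcendental extension is of this form. -/
lemma as_of_as_adjoin {F E : Type*} [Field F] [Field E] [Algebra F E] {ι : Type*}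
    {x : ι → E} (hx : AlgebraicIndependent F x) {c : F}
    (h : ∃ r : adjoin F (Set.range x), r ^ 2 + r = algebraMap F (adjoin F (Set.range x)) c) :
    ∃ r : F, r ^ 2 + r = c := by
  obtain ⟨f, hf⟩ := h
  set φ := hx.aevalEquivField
  have h1 : (φ.symm f) ^ 2 + (φ.symm f) = algebraMap F (FractionRing (MvPolynomial ι F)) c := by
    rw [← map_pow, ← map_add, hf, AlgEquiv.commutes]
  have h2 : IsIntegral (MvPolynomial ι F) (φ.symm f) := by
    refine ⟨X ^ 2 + (X - C (algebraMap F (MvPolynomial ι F) c)), ?_, ?_⟩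
    · apply monic_X_pow_add
      rw [degree_X_sub_C]
      exact Nat.one_lt_ofNat
    · rw [eval₂_add, eval₂_sub, eval₂_X_pow, eval₂_C, eval₂_X, ← IsScalarTower.algebraMap_apply,
        ← h1]
      ring
  obtain ⟨p, hp⟩ := IsIntegrallyClosed.isIntegral_iff.1 h2
  rw [← hp, ← map_pow, ← map_add, IsScalarTower.algebraMap_apply F (MvPolynomial ι F)] at h1
  have h3 := IsFractionRing.injective (MvPolynomial ι F) (FractionRing (MvPolynomial ι F)) h1
  refine ⟨MvPolynomial.eval (fun _ => (0 : F)) p, ?_⟩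
  rw [← map_pow, ← map_add, h3]
  simp

/-- two solutions of `r ^ 2 + r = a` in characteristic two -/
lemma sol {K : Type*} [Field K] (h2 : (2 : K) = 0) {r s a : K} (hr : r ^ 2 + r = a)
    (hs : s ^ 2 + s = a) : r = s ∨ r = s + 1 := by
  have h : (r - s) * (r - (s + 1)) = 0 := by
    linear_combination hr - hs + (- r * s + s ^ 2 - r + s) * h2
  rcases mul_eq_zero.1 h with h | h
  · left; exact sub_eq_zero.1 h
  · right; exact sub_eq_zero.1 h

lemma exists_tau {M Ω : Type u} [Field M] [Field Ω] [Algebra M Ω] [IsAlgClosed Ω]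
    (h2 : (2 : Ω) = 0) (g0 : M) (hg : ¬ ∃ m : M, m ^ 2 + m = g0) : ∃ τ : Ω ≃ₐ[M] Ω,
      ∀ r : Ω, r ^ 2 + r = algebraMap M Ω g0 → τ r = r + 1 := by
  classical
  obtain ⟨s, hs⟩ := exists_isTranscendenceBasis M Ω
  set N := IntermediateField.adjoin M (Set.range ((↑) : s → Ω)) with hN
  have halg : Algebra.IsAlgebraic N Ω := hs.isAlgebraic_field
  have hcl : IsAlgClosure N Ω := ⟨inferInstance, halg⟩
  have hnor : Normal N Ω := inferInstance
  have hmonic : (X ^ 2 + (X - C (algebraMap M N g0)) : N[X]).Monic := by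
    apply monic_X_pow_add
    rw [degree_X_sub_C]
    exact Nat.one_lt_ofNat
  have hdeg : (X ^ 2 + (X - C (algebraMap M N g0)) : N[X]).natDegree = 2 := by
    rw [natDegree_add_eq_left_of_natDegree_lt]
    · simp
    · rw [natDegree_X_sub_C, natDegree_X_pow]
      norm_num
  have hev : ∀ r : Ω, aeval r (X ^ 2 + (X - C (algebraMap M N g0)) : N[X]) =
      r ^ 2 + r - algebraMap M Ω g0 := by
    intro r
    rw [map_add, map_sub, map_pow, aeval_X, aeval_C, add_sub_assoc]
    rfl
  have hnsqN : ∀ r : N, ¬ r ^ 2 + r = algebraMap M N g0 := fun r hr =>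
    hg (as_of_as_adjoin hs.1 ⟨r, hr⟩)
  have hirr : Irreducible (X ^ 2 + (X - C (algebraMap M N g0)) : N[X]) := by
    apply irreducible_of_degree_le_three_of_not_isRoot
    · rw [hdeg]; simp
    · intro b hb
      apply hnsqN b
      have : eval b (X ^ 2 + (X - C (algebraMap M N g0)) : N[X]) = 0 := hb
      rw [eval_add, eval_sub, eval_X_pow, eval_X, eval_C] at this
      linear_combination this
  have hmin : ∀ r : Ω, r ^ 2 + r = algebraMap M Ω g0 →
      minpoly N r = X ^ 2 + (X - C (algebraMap M N g0)) := by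
    intro r hr
    refine (minpoly.eq_of_irreducible_of_monic hirr ?_ hmonic).symm
    rw [hev, hr, sub_self]
  obtain ⟨r0, hr0⟩ := IsAlgClosed.exists_aeval_eq_zero Ω
    (X ^ 2 + (X - C (algebraMap M N g0)) : N[X]) (by
      rw [degree_eq_natDegree hmonic.ne_zero, hdeg]
      norm_num)
  rw [hev, sub_eq_zero] at hr0
  have hr1 : (r0 + 1) ^ 2 + (r0 + 1) = algebraMap M Ω g0 := by
    rw [← hr0]
    linear_combination (r0 + 1) * h2
  obtain ⟨τ, hτ⟩ := (Normal.minpoly_eq_iff_mem_orbit (F := N) (E := Ω) (x := r0 + 1) (y := r0)).1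
    ((hmin _ hr1).trans (hmin _ hr0).symm)
  have hτ' : τ r0 = r0 + 1 := hτ
  refine ⟨τ.restrictScalars M, fun r hr => ?_⟩
  change τ r = r + 1
  rcases sol h2 hr hr0 with h | h
  · rw [h, hτ']
  · rw [h, map_add, map_one, hτ']

theorem tau : T_TAU.{u} := by
  intro M Ω _ _ _ _ _ g0 hg
  classical
  have h2M : (2 : M) = 0 := CharTwo.two_eq_zero
  have h2 : (2 : Ω) = 0 := by
    have := congrArg (algebraMap M Ω) h2M
    rwa [map_ofNat, map_zero] at this
  obtain ⟨τ, hτ⟩ := exists_tau (Ω := Ω) h2 g0 hg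
  have hex : ∀ x : M, ∃ r : Ω, r ^ 2 + r = algebraMap M Ω x := by
    intro x
    have hmonic : (X ^ 2 + (X - C (algebraMap M Ω x)) : Polynomial Ω).Monic := by
      apply monic_X_pow_add
      rw [degree_X_sub_C]
      exact Nat.one_lt_ofNat
    have hdeg : (X ^ 2 + (X - C (algebraMap M Ω x)) : Polynomial Ω).natDegree = 2 := by
      rw [natDegree_add_eq_left_of_natDegree_lt]
      · simp
      · rw [natDegree_X_sub_C, natDegree_X_pow]
        norm_num
    obtain ⟨r, hr⟩ := IsAlgClosed.exists_root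
      (X ^ 2 + (X - C (algebraMap M Ω x)) : Polynomial Ω) (by
        rw [degree_eq_natDegree hmonic.ne_zero, hdeg]
        norm_num)
    refine ⟨r, ?_⟩
    have : eval r (X ^ 2 + (X - C (algebraMap M Ω x)) : Polynomial Ω) = 0 := hr
    rw [eval_add, eval_sub, eval_X_pow, eval_X, eval_C] at this
    linear_combination this
  choose r hr using hex
  have hpm : ∀ x : M, τ (r x) = r x ∨ τ (r x) = r x + 1 := by
    intro x
    apply sol h2 (a := algebraMap M Ω x) _ (hr x)
    rw [← map_pow, ← map_add, hr, τ.commutes]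
  let e : M → ZMod 2 := fun x => if τ (r x) = r x then 0 else 1
  have he : ∀ (x : M) (t : Ω), t ^ 2 + t = algebraMap M Ω x → τ t = t + ((e x).val : Ω) := by
    intro x t ht
    have h1 : τ (r x) = r x + ((e x).val : Ω) := by
      by_cases h : τ (r x) = r x
      · simp [e, h]
      · rcases hpm x with h3 | h3
        · exact absurd h3 h
        · simp only [e, if_neg h]
          rw [h3]
          simp [ZMod.val_one]
    rcases sol h2 ht (hr x) with h | h
    · rw [h, h1]
    · rw [h, map_add, map_one, h1]; ring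
  have huniq : ∀ a b : ZMod 2, ((a.val : ℕ) : Ω) = ((b.val : ℕ) : Ω) → a = b := by
    intro a b h
    fin_cases a <;> fin_cases b
    · rfl
    · exfalso
      have h' : ((0 : ℕ) : Ω) = ((1 : ℕ) : Ω) := h
      rw [Nat.cast_zero, Nat.cast_one] at h'
      exact zero_ne_one h'
    · exfalso
      have h' : ((1 : ℕ) : Ω) = ((0 : ℕ) : Ω) := h
      rw [Nat.cast_zero, Nat.cast_one] at h'
      exact one_ne_zero h'
    · rfl
  have hadd : ∀ a b : ZMod 2, (((a + b).val : ℕ) : Ω) = ((a.val : ℕ) : Ω) + ((b.val : ℕ) : Ω) := by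
    intro a b
    fin_cases a <;> fin_cases b
    · change ((0 : ℕ) : Ω) = ((0 : ℕ) : Ω) + ((0 : ℕ) : Ω)
      simp
    · change ((1 : ℕ) : Ω) = ((0 : ℕ) : Ω) + ((1 : ℕ) : Ω)
      simp
    · change ((1 : ℕ) : Ω) = ((1 : ℕ) : Ω) + ((0 : ℕ) : Ω)
      simp
    · change ((0 : ℕ) : Ω) = ((1 : ℕ) : Ω) + ((1 : ℕ) : Ω)
      rw [Nat.cast_zero, Nat.cast_one]
      linear_combination -h2
  refine ⟨τ, AddMonoidHom.mk' e ?_, fun x t ht => he x t ht, ?_⟩
  · intro x y
    apply huniq
    have h1 : (r x + r y) ^ 2 + (r x + r y) = algebraMap M Ω (x + y) := by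
      rw [map_add, ← hr x, ← hr y]
      linear_combination (r x * r y) * h2
    have h3 := he (x + y) _ h1
    rw [map_add, he x _ (hr x), he y _ (hr y)] at h3
    rw [hadd]
    linear_combination -h3
  · change e g0 = 1
    apply huniq
    have h1 := he g0 _ (hr g0)
    rw [hτ _ (hr g0)] at h1
    have h3 := add_left_cancel h1
    rw [← h3]
    simp [ZMod.val_one]

end Pool.Agent.H47.EC.TAU
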